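import Pool.Agent.TH680.DT.Subst

/-! Algorithms relative to the empty oracle. -/

set_option autoImplicit false

namespace Pool.Agent.TH680.DT

open Pool.Agent.NPC Pool.Agent.H620R2.Gauge Pool.Agent.H622R2

theorem poly_of_isFP_empty {F : List Bool → List Bool} (h : IsFP (fun _ => false) F) : Poly F := by
  obtain ⟨M, hM⟩ := h
  have hMD : Poly M.D := poly_of_polyTime M.poly
  have hr : Poly (rnd M (fun _ => false)) := by
    have hu1 : Poly (fun z : List Bool => (unpair z).1) := Poly.fst poly_unpair
    have hu2 : Poly (fun z : List Bool => (unpair z).2) := Poly.snd poly_unpair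
    exact Poly.ite (Poly.decide_eq (Poly.head? hMD) (NPC.Poly.const _))
      (poly_pairBits hu1 (Poly.append hu2 (NPC.Poly.const [false]))) Poly.id
  have hl : Poly (fun x : List Bool => List.replicate (M.p.eval x.length) ()) :=
    UPoly.eval (UPoly.length Poly.id) M.p
  have h1 := Poly.iterLen (F := fun (_ : List Bool) s => rnd M (fun _ => false) s) hl
    (poly_pairBits Poly.id (NPC.Poly.const [])) (hr.comp (Poly.snd Poly.id))
    (4 * (2 * Polynomial.X + 1 + M.p) + 1) (by
      intro x k hk
      rw [List.length_replicate] at hk
      obtain ⟨a, h1, h2⟩ := rnd_len M (fun _ => false) x k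
      rw [h1]
      refine (sz_listBool_le _).trans ?_
      rw [length_pairBits]
      have h3 : x.length ≤ sz x := by
        have := sz_listBool_ge x
        omega
      have h4 : M.p.eval x.length ≤ M.p.eval (sz x) := eval_mono _ h3
      simp only [Polynomial.eval_add, Polynomial.eval_mul, Polynomial.eval_ofNat,
        Polynomial.eval_X, Polynomial.eval_one]
      omega)
  have h2 : Poly (fun x => (M.D ((rnd M (fun _ => false))^[M.p.eval x.length]
      (pairBits x []))).tail) := by
    refine (Poly.tail (hMD.comp h1)).congr fun x => ?_
    rw [List.length_replicate]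
  refine h2.congr fun x => ?_
  exact run_rnd M _ x _ _ _ (hM x)

end Pool.Agent.TH680.DT
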